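import Pool.Agent.H75.PRL.S5
import Pool.Agent.H87.AVR.ST3
import Pool.Agent.H26.RZ.AV

/-! # PRL, module AVP: the average number of nontrivial classes with given types -/

set_option autoImplicit false

namespace Pool.PRL

open Polynomial Matrix Pool.AVR Pool.AVS Pool.RZ

namespace AVP

open Classical in
/-- Summing over the cubics. -/
theorem sum_fib {F : Type} [Field F] (S : Set (F[X] × F[X] × F[X])) (hS : S.Finite)
    (u : F[X] × F[X] × F[X] → F[X] × F[X] × F[X]) (hu : Function.Injective u)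
    (Q : Matrix (Fin 3) (Fin 3) F[X] → Prop) (hQ : {B | Q B}.Finite) :
    ∑ f ∈ hS.toFinset, ({B : Matrix (Fin 3) (Fin 3) F[X] | Q B ∧
      (AA F[X] * B).charpoly = cubP (u f)}.ncard : ℝ) =
      ({B : Matrix (Fin 3) (Fin 3) F[X] | Q B ∧
        ∃ f ∈ S, (AA F[X] * B).charpoly = cubP (u f)}.ncard : ℝ) := by
  have hfin : ∀ f, {B : Matrix (Fin 3) (Fin 3) F[X] | Q B ∧
      (AA F[X] * B).charpoly = cubP (u f)}.Finite := fun f => hQ.subset (fun B hB => hB.1)
  have hfin2 : {B : Matrix (Fin 3) (Fin 3) F[X] | Q B ∧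
      ∃ f ∈ S, (AA F[X] * B).charpoly = cubP (u f)}.Finite := hQ.subset (fun B hB => hB.1)
  rw [Set.ncard_eq_toFinset_card _ hfin2]
  have e1 : hfin2.toFinset = hS.toFinset.biUnion (fun f => (hfin f).toFinset) := by
    ext B
    simp only [Set.Finite.mem_toFinset, Finset.mem_biUnion]
    constructor
    · rintro ⟨h1, f, hf, h2⟩
      exact ⟨f, hf, h1, h2⟩
    · rintro ⟨f, hf, h1, h2⟩
      exact ⟨h1, f, hf, h2⟩
  rw [e1, Finset.card_biUnion]
  · push_cast
    refine Finset.sum_congr rfl (fun f _ => ?_)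
    rw [Set.ncard_eq_toFinset_card _ (hfin f)]
  · intro f _ g _ hfg
    rw [Function.onFun, Finset.disjoint_left]
    intro B hB1 hB2
    rw [Set.Finite.mem_toFinset] at hB1 hB2
    exact hfg (hu (Pool.RZ.AV.cubP_inj (hB1.2.symm.trans hB2.2)))

theorem tw_inj {F : Type} [Field F] {d : F[X]} (hd : d ≠ 0) :
    Function.Injective (tw d : F[X] × F[X] × F[X] → F[X] × F[X] × F[X]) := by
  intro f g h
  unfold tw at h
  have h1 := congrArg (fun p => p.1) h
  have h2 := congrArg (fun p => p.2.1) h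
  have h3 := congrArg (fun p => p.2.2) h
  simp only at h1 h2 h3
  exact Prod.ext (mul_left_cancel₀ hd h1) (Prod.ext (mul_left_cancel₀ (pow_ne_zero _ hd) h2)
    (mul_left_cancel₀ (pow_ne_zero _ hd) h3))

end AVP

open AVP ST3 in
open Classical in
theorem avp_thm (hCNP : CNPStmt) (hNUP : NUPStmt) (hDNP : DNPStmt) (hPRP : PRPStmt)
    (hZET : ZETStmt) (hGRP : GRPStmt) (hCNB : CNBStmt) : AVPStmt := by
  intro F _ _ h2 T hT
  have hq3 := ST2.three_le h2
  set q : ℝ := (Nat.card F : ℝ) with hqdef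
  have hq : 3 ≤ q := by
    rw [hqdef]
    exact_mod_cast hq3
  have hq0 : 0 < q := by linarith
  obtain ⟨c, hc, hPRD'⟩ := hPRP F h2 T hT
  -- the primes
  have hprimes : ∀ D : ℕ, ∃ S : Finset F[X], (∀ P ∈ S, P.Monic ∧ Irreducible P ∧ P ∉ T) ∧
      ∀ P : F[X], P.Monic → Irreducible P → P.natDegree ≤ D → P ∉ T → P ∈ S := by
    intro D
    obtain ⟨S0, hS1, hS2⟩ := primes_fin F D
    refine ⟨S0 \ T, fun P hP => ?_, fun P h h' h'' h3 => ?_⟩
    · have h := Finset.mem_sdiff.1 hP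
      exact ⟨(hS1 P h.1).1, (hS1 P h.1).2, h.2⟩
    · exact Finset.mem_sdiff.2 ⟨hS2 P h h' h'', h3⟩
  constructor
  · obtain ⟨D, hD⟩ := hDNP F h2 T hT (c / 2) (by positivity)
    obtain ⟨S, hS1, hS2⟩ := hprimes D
    obtain ⟨N, hN⟩ := hD S hS1 hS2
    refine ⟨c / 2, by positivity, N, fun n hn => ?_⟩
    obtain ⟨h4, h3⟩ := hN n hn
    refine ⟨h4, le_trans ?_ h3⟩
    rw [mul_comm]
    apply mul_le_mul_of_nonneg_left _ (by positivity)
    have := hPRD' S (fun P hP => ⟨(hS1 P hP).1, (hS1 P hP).2.1⟩)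
    linarith
  intro y hy ε0 hε0
  -- reduce to `ε ≤ 1`
  set ε : ℝ := min ε0 1 with hεdef
  have hε : 0 < ε := lt_min hε0 one_pos
  have hε1 : ε ≤ 1 := min_le_right _ _
  have hεε : ε ≤ ε0 := min_le_left _ _
  obtain ⟨D1, hD1⟩ := hZET F (ε / 12) (by positivity)
  obtain ⟨D2, hD2⟩ := hDNP F h2 T hT (ε * c / 9) (by positivity)
  obtain ⟨S, hS1, hS2⟩ := hprimes (max D1 D2)
  have hdisj : Disjoint T S := by
    rw [Finset.disjoint_left]
    intro P hP hP'
    exact (hS1 P hP').2.2 hP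
  have hZ := hD1 (T ∪ S) (by
      intro P hP
      rcases Finset.mem_union.1 hP with hP | hP
      · exact ⟨(hT P hP).1, (hT P hP).2.1⟩
      exact ⟨(hS1 P hP).1, (hS1 P hP).2.1⟩) (by
      intro P h h' h''
      by_cases h0 : P ∈ T
      · exact Finset.mem_union_left _ h0
      exact Finset.mem_union_right _ (hS2 P h h' (h''.trans (le_max_left _ _)) h0))
  rw [Finset.prod_union hdisj] at hZ
  obtain ⟨N1, hN1⟩ := hD2 S hS1 (fun P h h' h'' h3 =>
    hS2 P h h' (h''.trans (le_max_right _ _)) h3)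
  obtain ⟨D3, hD3⟩ := hNUP F h2 T S hT hS1 y hy
  set e : ℕ := (pr (odd T y)).natDegree / 2 with hedef
  set k : ℕ := T.card with hkdef
  obtain ⟨N2, hN2⟩ := tail q (ε * c / (3 * 2 ^ k) / q ^ (12 * e)) hq (by positivity) D3
  have hd := hPRD' S (fun P hP => ⟨(hS1 P hP).1, (hS1 P hP).2.1⟩)
  set d : ℝ := ddT F T S with hddef
  have hfac : ∀ P : F[X], Irreducible P → 0 ≤ 1 - 1 / q ^ (2 * P.natDegree) := by
    intro P hP
    have h5 : 1 / q ^ (2 * P.natDegree) ≤ 1 := by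
      rw [div_le_one (by positivity)]
      exact one_le_pow₀ (by linarith)
    linarith
  set Z : ℝ := (∏ P ∈ T, (1 - 1 / q ^ (2 * P.natDegree))) *
    ∏ P ∈ S, (1 - 1 / q ^ (2 * P.natDegree)) with hZdef
  have hZ00 : 0 ≤ Z := by
    apply mul_nonneg
    · apply Finset.prod_nonneg
      intro P hP
      exact hfac P (hT P hP).2.1
    · apply Finset.prod_nonneg
      intro P hP
      exact hfac P (hS1 P hP).2.1
  have h1q : 0 ≤ 1 - 1 / q ^ 2 := by
    have h5 : 1 / q ^ 2 ≤ 1 := by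
      rw [div_le_one (by positivity)]
      exact one_le_pow₀ (by linarith)
    linarith
  have hd0 : 0 < d := lt_of_lt_of_le hc hd
  refine ⟨max (max N1 N2) 1, fun n hn => ?_⟩
  have hnN1 : N1 ≤ n := (le_max_left _ _).trans ((le_max_left _ _).trans hn)
  have hnN2 : N2 ≤ n := (le_max_right _ _).trans ((le_max_left _ _).trans hn)
  have hn1 : 1 ≤ n := (le_max_right _ _).trans hn
  obtain ⟨hfin, hlow⟩ := hN1 n hnN1
  have hCN := fun f hf => hCNP F h2 n T hn1 hT f hf y hy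
  refine ⟨hfin, fun f hf => (hCN f hf).1, ?_⟩
  have hT0 : 0 < q ^ (12 * n + 3) := by positivity
  have hcard0 : (0 : ℝ) < ((FmT F n T).ncard : ℝ) := by
    refine lt_of_lt_of_le ?_ hlow
    apply mul_pos hT0
    have : ε * c / 9 < c := by nlinarith
    linarith
  obtain ⟨hG1, hG2, hG3⟩ := hGRP F h2
  have hpr0 : pr (odd T y) ≠ 0 := by
    unfold pr
    rw [Finset.prod_ne_zero_iff]
    intro P hP
    unfold odd at hP
    exact (hT P (Finset.mem_filter.1 hP).1).1.ne_zero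
  set A : ℕ → Set (Matrix (Fin 3) (Fin 3) F[X]) := fun m => {B | Bd (n + e) m B ∧
    (∃ f ∈ FmT F n T, (AA F[X] * B).charpoly = cubP (tw (pr (odd T y)) f)) ∧ LocY T y B} with hA
  have hBdf : ∀ m, m ≤ n + e → {B : Matrix (Fin 3) (Fin 3) F[X] | Bd (n + e) m B}.Finite :=
    fun m hm => (hCNB F (n + e) m hm).1
  -- the sum over the cubics
  have hsum : ∑ᶠ f ∈ FmT F n T, ((PatR f T y).ncard : ℝ) ≤
      ∑ m ∈ Finset.range (n + e + 1), ((A m).ncard : ℝ) / ((GG F m).ncard : ℝ) := by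
    have h1 : ∑ᶠ f ∈ FmT F n T, ((PatR f T y).ncard : ℝ) ≤ ∑ f ∈ hfin.toFinset,
        ∑ m ∈ Finset.range (n + e + 1), ({B : Matrix (Fin 3) (Fin 3) F[X] | Bd (n + e) m B ∧
          (AA F[X] * B).charpoly = cubP (tw (pr (odd T y)) f) ∧ LocY T y B}.ncard : ℝ) /
            (GG F m).ncard := by
      rw [finsum_mem_eq_finite_toFinset_sum _ hfin]
      apply Finset.sum_le_sum
      intro f hf
      exact (hCN f (hfin.mem_toFinset.1 hf)).2
    refine h1.trans (le_of_eq ?_)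
    rw [Finset.sum_comm]
    refine Finset.sum_congr rfl (fun m hm => ?_)
    have hmn : m ≤ n + e := by
      have := Finset.mem_range.mp hm
      omega
    rw [← Finset.sum_div]
    congr 1
    have h3 := sum_fib (FmT F n T) hfin (tw (pr (odd T y))) (tw_inj hpr0)
      (fun B => Bd (n + e) m B ∧ LocY T y B)
      ((hBdf m hmn).subset (fun B hB => hB.1))
    have e1 : A m = {B : Matrix (Fin 3) (Fin 3) F[X] | (Bd (n + e) m B ∧ LocY T y B) ∧
        ∃ f ∈ FmT F n T, (AA F[X] * B).charpoly = cubP (tw (pr (odd T y)) f)} := by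
      ext B
      constructor
      · rintro ⟨h1, h2, h3⟩
        exact ⟨⟨h1, h3⟩, h2⟩
      · rintro ⟨⟨h1, h3⟩, h2⟩
        exact ⟨h1, h2, h3⟩
    rw [e1, ← h3]
    refine Finset.sum_congr rfl (fun f _ => ?_)
    congr 2
    ext B
    constructor
    · rintro ⟨h1, h2, h3⟩
      exact ⟨⟨h1, h3⟩, h2⟩
    · rintro ⟨⟨h1, h3⟩, h2⟩
      exact ⟨h1, h2, h3⟩
  have hcardS : ∀ m : ℕ, m ≤ n + e → ((A m).ncard : ℝ) ≤ q ^ (12 * (n + e) + 6) := by
    intro m hmn
    obtain ⟨hC1, hC2⟩ := hCNB F (n + e) m hmn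
    have h8 := (Set.ncard_le_ncard (s := A m) (fun B hB => hB.1) hC1).trans hC2
    rw [hqdef]
    exact_mod_cast h8
  have hqe : 0 < q ^ (12 * e) := by positivity
  have hk0 : (0 : ℝ) < 2 ^ k := by positivity
  have hX := sumM q ((1 - 1 / q ^ 2) * d * Z / 2 ^ k / q ^ (12 * e)) hq (by
      exact div_nonneg (div_nonneg (mul_nonneg (mul_nonneg h1q hd0.le) hZ00) hk0.le) hqe.le)
    D3 (n + e) (fun m => ((A m).ncard : ℝ))
    (fun m => ((GG F m).ncard : ℝ)) (fun m => Nat.cast_nonneg _) (fun m hm => hcardS m hm)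
    (fun m hm => by
      have h5 := hD3 n m hm
      refine h5.trans (le_of_eq ?_)
      have e2 : q ^ (12 * (n + e) + 6) = q ^ (12 * n + 6) * q ^ (12 * e) := by
        rw [← pow_add]
        congr 1
        ring
      rw [e2]
      have e4 : q ^ (12 * n + 6) * q ^ (12 * e) *
          ((1 - 1 / q ^ 2) * d * Z / 2 ^ k / q ^ (12 * e)) =
          q ^ (12 * n + 6) * ((1 - 1 / q ^ 2) * d * Z / 2 ^ k) := by
        generalize (1 - 1 / q ^ 2) * d * Z / 2 ^ k = x
        field_simp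
      rw [e4]
      ring)
    (fun m => ST2.GG_ge hGRP h2 m)
    (by
      have h11 : Nat.card F ≤ Nat.card F ^ 3 := Nat.le_self_pow (by norm_num) _
      have h12 : ((Nat.card F ^ 3 - Nat.card F : ℕ) : ℝ) ≤ ((GG F 0).ncard : ℝ) := by
        exact_mod_cast hG2
      rw [Nat.cast_sub h11] at h12
      push_cast at h12
      exact h12)
    (fun m hm => by
      have h12 : (((Nat.card F - 1) * Nat.card F ^ (m + 1) : ℕ) : ℝ) ≤
          ((GG F m).ncard : ℝ) := by
        exact_mod_cast hG3 m hm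
      rw [Nat.cast_mul, Nat.cast_sub (le_of_lt (Finite.one_lt_card))] at h12
      push_cast at h12
      exact h12)
  set X : ℝ := ∑ᶠ f ∈ FmT F n T, ((PatR f T y).ncard : ℝ) with hXdef
  have hX2 : 2 ^ k * X ≤
      q ^ 3 * q ^ (12 * n + 3) * ((1 - 1 / q ^ 2) * d * Z) * (2 / ((q - 1) ^ 2 * (q + 1))) +
        ε * c / 3 * q ^ (12 * n + 3) := by
    have e1 : q ^ (12 * (n + e) + 6) = q ^ 3 * q ^ (12 * n + 3) * q ^ (12 * e) := by
      rw [← pow_add, ← pow_add]
      congr 1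
      ring
    have e3 : q ^ (12 * (n + e) + 3) = q ^ (12 * n + 3) * q ^ (12 * e) := by
      rw [← pow_add]
      congr 1
      ring
    have h9 := hN2 (n + e) (hnN2.trans (Nat.le_add_right _ _))
    have h10 := hsum.trans hX
    rw [e3] at h9
    have h11 : ε * c / (3 * 2 ^ k) / q ^ (12 * e) * (q ^ (12 * n + 3) * q ^ (12 * e)) =
        ε * c / (3 * 2 ^ k) * q ^ (12 * n + 3) := by
      field_simp
    rw [h11] at h9
    have h12 : q ^ (12 * (n + e) + 6) * ((1 - 1 / q ^ 2) * d * Z / 2 ^ k / q ^ (12 * e)) *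
        (2 / ((q - 1) ^ 2 * (q + 1))) = (q ^ 3 * q ^ (12 * n + 3) * ((1 - 1 / q ^ 2) * d * Z) *
          (2 / ((q - 1) ^ 2 * (q + 1)))) / 2 ^ k := by
      rw [e1]
      generalize (1 - 1 / q ^ 2) * d * Z = x
      generalize (2 / ((q - 1) ^ 2 * (q + 1))) = z
      field_simp
    rw [h12] at h10
    have h13 := mul_le_mul_of_nonneg_left (h10.trans (add_le_add le_rfl h9)) hk0.le
    refine h13.trans (le_of_eq ?_)
    generalize q ^ 3 * q ^ (12 * n + 3) * ((1 - 1 / q ^ 2) * d * Z) *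
      (2 / ((q - 1) ^ 2 * (q + 1))) = x
    field_simp
  have hfinal := final q ε d c (2 ^ k * X) ((FmT F n T).ncard : ℝ) (q ^ (12 * n + 3)) Z
    (ε * c / 9) hq hε hε1 hT0 hc hd hZ le_rfl hX2 hlow
  have h13 : ε * ((FmT F n T).ncard : ℝ) ≤ ε0 * (FmT F n T).ncard :=
    mul_le_mul_of_nonneg_right hεε hcard0.le
  have h14 : 0 ≤ ε * ((FmT F n T).ncard : ℝ) := by positivity
  have h15 : X ≤ (2 + ε) * ((FmT F n T).ncard : ℝ) / 2 ^ k := by
    rw [le_div_iff₀ hk0]
    linarith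
  have h16 : (1 : ℝ) ≤ 2 ^ k := one_le_pow₀ (by norm_num)
  have h17 : ε * ((FmT F n T).ncard : ℝ) / 2 ^ k ≤ ε * ((FmT F n T).ncard : ℝ) :=
    div_le_self h14 h16
  have h18 : (2 + ε) * ((FmT F n T).ncard : ℝ) / 2 ^ k =
      2 / 2 ^ k * ((FmT F n T).ncard : ℝ) + ε * ((FmT F n T).ncard : ℝ) / 2 ^ k := by
    ring
  rw [h18] at h15
  have h19 : (2 / 2 ^ k + ε0) * ((FmT F n T).ncard : ℝ) =
      2 / 2 ^ k * ((FmT F n T).ncard : ℝ) + ε0 * ((FmT F n T).ncard : ℝ) := by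
    ring
  rw [h19]
  linarith

end Pool.PRL
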