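import Pool.Agent.H75.PRL.S5
import Pool.Agent.H87.RZ.PR2

/-!
# PRL, module PRP: the density of the family is bounded below
-/

set_option autoImplicit false

namespace Pool.PRL

open Polynomial Matrix Pool.AVR Pool.AVS Pool.RZ

open Pool.RZ.H87PR2 in
theorem prp_thm (hPRG : PRGStmt) : PRPStmt := by
  intro F _ _ h2 T hT
  obtain ⟨c, hc, h⟩ := hPRG F h2
  have hq1 : 1 < Nat.card F := Finite.one_lt_card
  have hq : (1 : ℝ) < (Nat.card F : ℝ) := by exact_mod_cast hq1
  have hK : 0 < ∏ P ∈ T, ((Nat.card F : ℝ) ^ P.natDegree - 1) /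
      (2 * (Nat.card F : ℝ) ^ P.natDegree) := by
    apply Finset.prod_pos
    intro P hP
    have h4 : P.natDegree ≠ 0 := (hT P hP).2.1.natDegree_pos.ne'
    have h5 : 1 < (Nat.card F : ℝ) ^ P.natDegree := one_lt_pow₀ hq h4
    apply div_pos
    · linarith
    · linarith
  have h3 := d3_pos (F := F)
  refine ⟨d3 F * (∏ P ∈ T, ((Nat.card F : ℝ) ^ P.natDegree - 1) /
      (2 * (Nat.card F : ℝ) ^ P.natDegree)) * c, ?_, ?_⟩
  · positivity
  intro S hS
  have : Finite (DualNumber F) := inferInstanceAs (Finite (F × F))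
  have h5 := dens_le_one (DualNumber F)
  have h6 := h S hS
  have h7 : 0 ≤ ∏ P ∈ S, dens (AdjoinRoot (P ^ 2)) := by
    apply Finset.prod_nonneg
    intro P _
    rw [dens]
    positivity
  have h8 : c ≤ ∏ P ∈ S, dens (AdjoinRoot (P ^ 2)) := by
    refine h6.trans ?_
    calc dens (DualNumber F) * ∏ P ∈ S, dens (AdjoinRoot (P ^ 2))
        ≤ 1 * ∏ P ∈ S, dens (AdjoinRoot (P ^ 2)) := mul_le_mul_of_nonneg_right h5 h7
      _ = _ := one_mul _
  rw [ddT]
  exact mul_le_mul_of_nonneg_left h8 (by positivity)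

end Pool.PRL
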